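import Mathlib

set_option autoImplicit false

/-!
# Mordell equations with small coefficients, for almost all constants

From a bound for the number of the integers `k`, `|k| ≤ K`, for which `y ^ 2 = x ^ 3 + k` has an
integral point with `|x| ≤ exp (K ^ δ)`, to one for all equations `a y ^ 2 = b x ^ 3 + e k` with small
`a`, `b`, `e` at the same time.
-/

namespace Pool.Agent.K7.H33.Hall

open Real

/-- the exceptional set of the starting theorem -/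
def Ex (δ K : ℝ) : Set ℤ :=
  {k : ℤ | k ≠ 0 ∧ |(k : ℝ)| ≤ K ∧ ∃ x y : ℤ, y ^ 2 = x ^ 3 + k ∧ |(x : ℝ)| ≤ Real.exp (K ^ δ)}

/-- the statement of the starting theorem -/
def Almost (δ θ : ℝ) : Prop :=
  ∃ M : ℝ, ∀ K : ℝ, 1 ≤ K → ((Ex δ K).ncard : ℝ) ≤ M * K ^ θ

/-- the exceptional set for the equations `a y ^ 2 = b x ^ 3 + e k`, `|a|, |b|, |e| ≤ R` -/
def Ex3 (δ K R : ℝ) : Set ℤ :=
  {k : ℤ | k ≠ 0 ∧ |(k : ℝ)| ≤ K ∧ ∃ a b e x y : ℤ, a ≠ 0 ∧ b ≠ 0 ∧ e ≠ 0 ∧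
    |(a : ℝ)| ≤ R ∧ |(b : ℝ)| ≤ R ∧ |(e : ℝ)| ≤ R ∧ a * y ^ 2 = b * x ^ 3 + e * k ∧
    |(x : ℝ)| ≤ Real.exp (K ^ δ)}

lemma abs_finite (X : ℝ) : {k : ℤ | |(k : ℝ)| ≤ X}.Finite := by
  refine (Set.finite_Icc (-⌊X⌋) ⌊X⌋).subset ?_
  intro k h1
  rw [Set.mem_ofPred_eq, abs_le] at h1
  rw [Set.mem_Icc]
  constructor
  · rw [neg_le]
    apply Int.le_floor.2
    push_cast
    linarith [h1.1]
  · exact Int.le_floor.2 h1.2

lemma abs_ncard {X : ℝ} (hX : 0 ≤ X) : ({k : ℤ | |(k : ℝ)| ≤ X}.ncard : ℝ) ≤ 2 * X + 1 := by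
  have h1 : {k : ℤ | |(k : ℝ)| ≤ X} ⊆ ((Finset.Icc (-⌊X⌋) ⌊X⌋ : Finset ℤ) : Set ℤ) := by
    intro k h1
    rw [Set.mem_ofPred_eq, abs_le] at h1
    rw [Finset.coe_Icc, Set.mem_Icc]
    constructor
    · rw [neg_le]
      apply Int.le_floor.2
      push_cast
      linarith [h1.1]
    · exact Int.le_floor.2 h1.2
  have h2 := Set.ncard_le_ncard h1 (Finset.finite_toSet _)
  rw [Set.ncard_coe_finset, Int.card_Icc] at h2
  have h3 : ((⌊X⌋ + 1 - -⌊X⌋).toNat : ℝ) ≤ 2 * X + 1 := by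
    have h4 : (0 : ℤ) ≤ ⌊X⌋ := Int.floor_nonneg.2 hX
    have h5 : ((⌊X⌋ + 1 - -⌊X⌋).toNat : ℤ) = 2 * ⌊X⌋ + 1 := by
      rw [Int.toNat_of_nonneg (by omega)]
      ring
    have h6 : ((⌊X⌋ + 1 - -⌊X⌋).toNat : ℝ) = 2 * (⌊X⌋ : ℝ) + 1 := by
      have := congrArg (fun z : ℤ => (z : ℝ)) h5
      push_cast at this
      exact this
    rw [h6]
    have := Int.floor_le X
    linarith
  exact le_trans (by exact_mod_cast h2) h3

/-- the inequality for the heights -/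
lemma height {δ K R : ℝ} (hδ : 0 < δ) (hR : 1 ≤ R) (hK : 1 / (3 * δ) ≤ K ^ δ) (hK1 : 1 ≤ K) :
    R ^ 2 * Real.exp (K ^ δ) ≤ Real.exp ((R ^ 6 * K) ^ δ) := by
  have hR0 : 0 < R := by linarith
  have hK0 : 0 < K := by linarith
  have h1 : R ^ 2 = Real.exp (2 * Real.log R) := by
    rw [two_mul, Real.exp_add, Real.exp_log hR0]
    ring
  rw [h1, ← Real.exp_add]
  apply Real.exp_le_exp.2
  rw [Real.mul_rpow (by positivity) hK0.le]
  have h2 : 1 + 6 * δ * Real.log R ≤ (R ^ 6) ^ δ := by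
    rw [← Real.rpow_natCast R 6, ← Real.rpow_mul hR0.le, Real.rpow_def_of_pos hR0]
    have := Real.add_one_le_exp (Real.log R * (((6 : ℕ) : ℝ) * δ))
    push_cast at this ⊢
    linarith
  have hlog : 0 ≤ Real.log R := Real.log_nonneg hR
  have h3 : 0 < K ^ δ := by positivity
  have h4 : 2 * Real.log R ≤ 6 * δ * Real.log R * K ^ δ := by
    have h5 : 2 ≤ 6 * δ * K ^ δ := by
      rw [div_le_iff₀ (by positivity)] at hK
      linarith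
    calc 2 * Real.log R ≤ (6 * δ * K ^ δ) * Real.log R := mul_le_mul_of_nonneg_right h5 hlog
      _ = _ := by ring
  calc 2 * Real.log R + K ^ δ ≤ 6 * δ * Real.log R * K ^ δ + K ^ δ := by linarith
    _ = (1 + 6 * δ * Real.log R) * K ^ δ := by ring
    _ ≤ (R ^ 6) ^ δ * K ^ δ := mul_le_mul_of_nonneg_right h2 h3.le

/-- from `a y ^ 2 = b x ^ 3 + e k` to `Y ^ 2 = X ^ 3 + (a ^ 3 b ^ 2 e) k` -/
lemma mem_Ex {δ K R : ℝ} (hδ : 0 < δ) (hR : 1 ≤ R) (hK : 1 / (3 * δ) ≤ K ^ δ) (hK1 : 1 ≤ K)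
    {k a b e x y : ℤ} (hk : k ≠ 0) (hkK : |(k : ℝ)| ≤ K) (ha : a ≠ 0) (hb : b ≠ 0) (he : e ≠ 0)
    (haR : |(a : ℝ)| ≤ R) (hbR : |(b : ℝ)| ≤ R) (heR : |(e : ℝ)| ≤ R)
    (heq : a * y ^ 2 = b * x ^ 3 + e * k) (hx : |(x : ℝ)| ≤ Real.exp (K ^ δ)) :
    a ^ 3 * b ^ 2 * e * k ∈ Ex δ (R ^ 6 * K) := by
  have hR0 : 0 < R := by linarith
  have hK0 : 0 < K := by linarith
  refine ⟨by positivity, ?_, a * b * x, a ^ 2 * b * y, ?_, ?_⟩
  · push_cast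
    rw [abs_mul, abs_mul, abs_mul, abs_pow, abs_pow]
    calc |(a : ℝ)| ^ 3 * |(b : ℝ)| ^ 2 * |(e : ℝ)| * |(k : ℝ)| ≤ R ^ 3 * R ^ 2 * R * K := by gcongr
      _ = R ^ 6 * K := by ring
  · linear_combination a ^ 3 * b ^ 2 * heq
  · push_cast
    rw [abs_mul, abs_mul]
    calc |(a : ℝ)| * |(b : ℝ)| * |(x : ℝ)| ≤ R * R * Real.exp (K ^ δ) := by gcongr
      _ = R ^ 2 * Real.exp (K ^ δ) := by ring
      _ ≤ _ := height hδ hR hK hK1

lemma count_large {δ θ : ℝ} (hδ : 0 < δ) {M : ℝ}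
    (hM : ∀ K : ℝ, 1 ≤ K → ((Ex δ K).ncard : ℝ) ≤ M * K ^ θ) {K R : ℝ} (hR : 1 ≤ R)
    (hK : 1 / (3 * δ) ≤ K ^ δ) (hK1 : 1 ≤ K) :
    ((Ex3 δ K R).ncard : ℝ) ≤ (3 * R) ^ 3 * (M * (R ^ 6 * K) ^ θ) := by
  classical
  have hR0 : 0 < R := by linarith
  have hK0 : 0 < K := by linarith
  -- the coefficients
  let J : Finset ℤ := (abs_finite R).toFinset
  have hJ : ∀ a : ℤ, |(a : ℝ)| ≤ R → a ∈ J := fun a h => (abs_finite R).mem_toFinset.2 h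
  have hJc : (J.card : ℝ) ≤ 3 * R := by
    have h1 := abs_ncard hR0.le
    rw [Set.ncard_eq_toFinset_card _ (abs_finite R)] at h1
    calc (J.card : ℝ) ≤ 2 * R + 1 := h1
      _ ≤ 3 * R := by linarith
  have hfin : (Ex δ (R ^ 6 * K)).Finite := (abs_finite (R ^ 6 * K)).subset fun k hk => hk.2.1
  let S : Finset ℤ := hfin.toFinset
  -- the cover
  have hcov : Ex3 δ K R ⊆ (((J ×ˢ J ×ˢ J ×ˢ S).image
      (fun p : ℤ × ℤ × ℤ × ℤ => p.2.2.2 / (p.1 ^ 3 * p.2.1 ^ 2 * p.2.2.1)) : Finset ℤ) : Set ℤ) := by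
    rintro k ⟨hk, hkK, a, b, e, x, y, ha, hb, he, haR, hbR, heR, heq, hx⟩
    have h1 := mem_Ex hδ hR hK hK1 hk hkK ha hb he haR hbR heR heq hx
    rw [Finset.coe_image]
    refine ⟨(a, b, e, a ^ 3 * b ^ 2 * e * k), ?_, ?_⟩
    · rw [Finset.mem_coe]
      simp only [Finset.mem_product]
      exact ⟨hJ a haR, hJ b hbR, hJ e heR, hfin.mem_toFinset.2 h1⟩
    · show a ^ 3 * b ^ 2 * e * k / (a ^ 3 * b ^ 2 * e) = k
      exact Int.mul_ediv_cancel_left k (by positivity)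
  have h2 := Set.ncard_le_ncard hcov (Finset.finite_toSet _)
  rw [Set.ncard_coe_finset] at h2
  have h3 : (J ×ˢ J ×ˢ J ×ˢ S).card = J.card * (J.card * (J.card * S.card)) := by
    simp only [Finset.card_product]
  have h4 : (Ex3 δ K R).ncard ≤ J.card * (J.card * (J.card * S.card)) :=
    (h2.trans Finset.card_image_le).trans h3.le
  have h5 : ((Ex3 δ K R).ncard : ℝ) ≤ J.card * (J.card * (J.card * (S.card : ℝ))) := by
    exact_mod_cast h4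
  have h6 : (S.card : ℝ) ≤ M * (R ^ 6 * K) ^ θ := by
    have h7 := hM (R ^ 6 * K) (by
      have : 1 ≤ R ^ 6 := one_le_pow₀ hR
      nlinarith)
    rwa [Set.ncard_eq_toFinset_card _ hfin] at h7
  have h8 : (0 : ℝ) ≤ S.card := Nat.cast_nonneg _
  calc ((Ex3 δ K R).ncard : ℝ) ≤ J.card * (J.card * (J.card * (S.card : ℝ))) := h5
    _ ≤ (3 * R) * ((3 * R) * ((3 * R) * (M * (R ^ 6 * K) ^ θ))) := by
        have h9 : (0 : ℝ) ≤ J.card := Nat.cast_nonneg _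
        gcongr
    _ = (3 * R) ^ 3 * (M * (R ^ 6 * K) ^ θ) := by ring

/-- **The count for all small coefficients.** -/
theorem count {δ θ : ℝ} (hδ : 0 < δ) (hθ : 0 ≤ θ) (h : Almost δ θ) {c B : ℝ} (hc : 0 ≤ c)
    (hB : 1 ≤ B) : ∃ M : ℝ, ∀ K : ℝ, 1 ≤ K →
      ((Ex3 δ K (B * K ^ c)).ncard : ℝ) ≤ M * K ^ (θ + (3 + 6 * θ) * c) := by
  obtain ⟨M, hM⟩ := h
  have hM0 : 0 ≤ M := by
    have h1 := hM 1 le_rfl
    rw [Real.one_rpow, mul_one] at h1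
    exact le_trans (Nat.cast_nonneg _) h1
  -- the threshold
  obtain ⟨K₀, hK₀⟩ : ∃ K₀ : ℝ, K₀ = max 1 ((1 / (3 * δ)) ^ (1 / δ)) := ⟨_, rfl⟩
  have hK₀1 : 1 ≤ K₀ := by rw [hK₀]; exact le_max_left _ _
  have hthr : ∀ K : ℝ, K₀ ≤ K → 1 / (3 * δ) ≤ K ^ δ := by
    intro K hK
    have h1 : (1 / (3 * δ)) ^ (1 / δ) ≤ K := le_trans (by rw [hK₀]; exact le_max_right _ _) hK
    have h2 : (0 : ℝ) ≤ 1 / (3 * δ) := by positivity
    calc 1 / (3 * δ) = ((1 / (3 * δ)) ^ (1 / δ)) ^ δ := by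
          rw [← Real.rpow_mul h2, one_div_mul_cancel hδ.ne', Real.rpow_one]
      _ ≤ K ^ δ := Real.rpow_le_rpow (by positivity) h1 hδ.le
  refine ⟨(2 * K₀ + 1) + 27 * B ^ 3 * M * (B ^ 6) ^ θ, fun K hK => ?_⟩
  have hK0 : 0 < K := by linarith
  have hB0 : 0 < B := by linarith
  have hE : 1 ≤ K ^ (θ + (3 + 6 * θ) * c) := Real.one_le_rpow hK (by positivity)
  have hP : 0 ≤ 27 * B ^ 3 * M * (B ^ 6) ^ θ := by positivity
  rcases le_or_gt K₀ K with hcase | hcase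
  · have hR : 1 ≤ B * K ^ c := one_le_mul_of_one_le_of_one_le hB (Real.one_le_rpow hK hc)
    have h1 := count_large hδ hM hR (hthr K hcase) hK
    refine h1.trans ?_
    have h2 : ((B * K ^ c) ^ 6 * K) ^ θ = (B ^ 6) ^ θ * K ^ ((6 * c + 1) * θ) := by
      rw [mul_pow, mul_assoc, Real.mul_rpow (by positivity) (by positivity)]
      congr 1
      rw [← Real.rpow_natCast (K ^ c) 6, ← Real.rpow_mul hK0.le]
      nth_rewrite 2 [← Real.rpow_one K]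
      rw [← Real.rpow_add hK0, ← Real.rpow_mul hK0.le]
      push_cast
      ring_nf
    have h3 : (3 * (B * K ^ c)) ^ 3 = 27 * B ^ 3 * K ^ (3 * c) := by
      rw [mul_pow, mul_pow, ← Real.rpow_natCast (K ^ c) 3, ← Real.rpow_mul hK0.le]
      push_cast
      ring_nf
    rw [h2, h3]
    have h4 : K ^ (3 * c) * K ^ ((6 * c + 1) * θ) = K ^ (θ + (3 + 6 * θ) * c) := by
      rw [← Real.rpow_add hK0]
      ring_nf
    calc 27 * B ^ 3 * K ^ (3 * c) * (M * ((B ^ 6) ^ θ * K ^ ((6 * c + 1) * θ)))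
        = 27 * B ^ 3 * M * (B ^ 6) ^ θ * (K ^ (3 * c) * K ^ ((6 * c + 1) * θ)) := by ring
      _ = 27 * B ^ 3 * M * (B ^ 6) ^ θ * K ^ (θ + (3 + 6 * θ) * c) := by rw [h4]
      _ ≤ ((2 * K₀ + 1) + 27 * B ^ 3 * M * (B ^ 6) ^ θ) * K ^ (θ + (3 + 6 * θ) * c) := by
          apply mul_le_mul_of_nonneg_right _ (by positivity)
          linarith
  · have h1 : ((Ex3 δ K (B * K ^ c)).ncard : ℝ) ≤ 2 * K₀ + 1 := by
      have h2 : Ex3 δ K (B * K ^ c) ⊆ {k : ℤ | |(k : ℝ)| ≤ K₀} := fun k hk =>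
        hk.2.1.trans hcase.le
      have h3 := Set.ncard_le_ncard h2 (abs_finite K₀)
      exact le_trans (by exact_mod_cast h3) (abs_ncard (by linarith))
    have h4 : 0 ≤ 2 * K₀ + 1 := by linarith
    calc ((Ex3 δ K (B * K ^ c)).ncard : ℝ) ≤ 2 * K₀ + 1 := h1
      _ ≤ (2 * K₀ + 1) + 27 * B ^ 3 * M * (B ^ 6) ^ θ := by linarith
      _ ≤ _ := le_mul_of_one_le_right (by positivity) hE

end Pool.Agent.K7.H33.Hall
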