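import Pool.Agent.K7.H33.Hall.Coef

set_option autoImplicit false

/-!
# Consequences for rational points, elliptic curves and binary cubic forms
-/

namespace Pool.Agent.K7.H33.Hall

/-- If `y ^ 2 = x ^ 3 + m` with rational `x`, `y` and an integer `m`, then the numerator `u` and the
denominator `d` of `x` satisfy `v ^ 2 = u ^ 3 + m d ^ 3` for an integer `v`. -/
lemma rat_point {x y : ℚ} {m : ℤ} (h : y ^ 2 = x ^ 3 + m) :
    ∃ v : ℤ, v ^ 2 = x.num ^ 3 + m * (x.den : ℤ) ^ 3 := by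
  have hd0 : (x.den : ℚ) ≠ 0 := by exact_mod_cast x.den_ne_zero
  have hw0 : (y.den : ℚ) ≠ 0 := by exact_mod_cast y.den_ne_zero
  -- the integral equation `v ^ 2 d ^ 3 = N w ^ 2`
  have hx : x = (x.num : ℚ) / (x.den : ℚ) := (Rat.num_div_den x).symm
  have hy : y = (y.num : ℚ) / (y.den : ℚ) := (Rat.num_div_den y).symm
  obtain ⟨u, hu⟩ : ∃ u, u = x.num := ⟨_, rfl⟩
  obtain ⟨d, hd⟩ : ∃ d : ℕ, d = x.den := ⟨_, rfl⟩
  obtain ⟨v, hv⟩ : ∃ v, v = y.num := ⟨_, rfl⟩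
  obtain ⟨w, hw⟩ : ∃ w : ℕ, w = y.den := ⟨_, rfl⟩
  rw [← hu, ← hd] at hx
  rw [← hv, ← hw] at hy
  rw [← hd] at hd0
  rw [← hw] at hw0
  have hcop1 : IsCoprime u (d : ℤ) := by
    rw [hu, hd, Int.isCoprime_iff_gcd_eq_one]
    exact x.reduced
  have hcop2 : IsCoprime v (w : ℤ) := by
    rw [hv, hw, Int.isCoprime_iff_gcd_eq_one]
    exact y.reduced
  rw [← hu, ← hd]
  have key : v ^ 2 * (d : ℤ) ^ 3 = (u ^ 3 + m * (d : ℤ) ^ 3) * (w : ℤ) ^ 2 := by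
    have h1 : ((v ^ 2 * (d : ℤ) ^ 3 : ℤ) : ℚ) = (((u ^ 3 + m * (d : ℤ) ^ 3) * (w : ℤ) ^ 2 : ℤ) : ℚ) := by
      rw [hx, hy] at h
      push_cast
      field_simp at h
      linear_combination h
    exact_mod_cast h1
  have hcN : IsCoprime (u ^ 3 + m * (d : ℤ) ^ 3) ((d : ℤ) ^ 3) := by
    have h1 : IsCoprime (u ^ 3) ((d : ℤ) ^ 3) := hcop1.pow
    exact h1.add_mul_right_left m
  have hcvw : IsCoprime (v ^ 2) ((w : ℤ) ^ 2) := hcop2.pow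
  have h1 : (w : ℤ) ^ 2 ∣ (d : ℤ) ^ 3 := by
    have : (w : ℤ) ^ 2 ∣ v ^ 2 * (d : ℤ) ^ 3 :=
      ⟨u ^ 3 + m * (d : ℤ) ^ 3, by rw [key]; ring⟩
    exact hcvw.symm.dvd_of_dvd_mul_left this
  have h2 : (d : ℤ) ^ 3 ∣ (w : ℤ) ^ 2 := by
    have : (d : ℤ) ^ 3 ∣ (u ^ 3 + m * (d : ℤ) ^ 3) * (w : ℤ) ^ 2 :=
      ⟨v ^ 2, by rw [← key]; ring⟩
    exact hcN.symm.dvd_of_dvd_mul_left this
  have h3 : (w : ℤ) ^ 2 = (d : ℤ) ^ 3 :=
    Int.dvd_antisymm (by positivity) (by positivity) h1 h2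
  refine ⟨v, ?_⟩
  rw [h3] at key
  have h4 : (d : ℤ) ^ 3 ≠ 0 := by
    have : (d : ℤ) ≠ 0 := by exact_mod_cast hd0
    positivity
  exact mul_right_cancel₀ h4 key

/-- the covariants of a binary cubic form -/
lemma cubic_cov (P : Cubic ℤ) :
    (2 * P.b ^ 3 - 9 * P.a * P.b * P.c + 27 * P.a ^ 2 * P.d) ^ 2 =
      4 * (P.b ^ 2 - 3 * P.a * P.c) ^ 3 + (-27 * P.a ^ 2) * P.discr := by
  unfold Cubic.discr
  ring

end Pool.Agent.K7.H33.Hall
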